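import Mathlib
import Pool.Agent.Q284.DD.Pos

set_option autoImplicit false

/-!
Limits of ratios of double descent set counts.
-/

namespace Pool.Agent.Results.MP_ff54ac_co.RatioLimit

open Filter Topology

/-- `i` is a double descent of the permutation `w` of `{1, ..., n}`, positions being numbered
from `1`: `2 ≤ i ≤ n - 1` and `w(i-1) > w(i) > w(i+1)`. -/
def IsDD {n : ℕ} (w : Equiv.Perm (Fin n)) (i : ℕ) : Prop :=
  ∃ (_ : 2 ≤ i) (_ : i + 1 ≤ n), w ⟨i - 1, by omega⟩ < w ⟨i - 2, by omega⟩ ∧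
    w ⟨i, by omega⟩ < w ⟨i - 1, by omega⟩

/-- the number of permutations of `[n]` whose double descent set is exactly `I` -/
noncomputable def dd (I : Finset ℕ) (n : ℕ) : ℕ :=
  Nat.card {w : Equiv.Perm (Fin n) // ∀ i, IsDD w i ↔ i ∈ I}

/-- If `dd(I;n)` and `dd(J;n)` are positive for all large `n`, then `dd(I;n)/dd(J;n)` converges
to a positive real number. -/
theorem result : ∀ I J : Finset ℕ, (∀ᶠ n in atTop, 0 < dd I n) → (∀ᶠ n in atTop, 0 < dd J n) →
    ∃ L : ℝ, 0 < L ∧ Tendsto (fun n => (dd I n : ℝ) / (dd J n : ℝ)) atTop (𝓝 L) :=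
  fun I J hI hJ => Pool.Agent.Q284.DD.ratio_limit I J hI hJ

end Pool.Agent.Results.MP_ff54ac_co.RatioLimit
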